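import Pool.Agent.H91.NL.Fin1

namespace Pool.Agent.Results.MP_023499_nt.AlmostAllBases

/-- The set of integers `x` with `|x| > 1` for which the Nagell-Ljunggren equation
`1 + x + ... + x^(d-1) = y^k` has a solution with `|y| > 1`, `d > 2` and `k > 1` odd has natural
density `0`. -/
theorem result : Filter.Tendsto (fun X : ℕ => (({x : ℤ | |x| ≤ (X : ℤ) ∧ 1 < |x| ∧
    ∃ (y : ℤ) (d k : ℕ), 1 < |y| ∧ 2 < d ∧ 1 < k ∧ Odd k ∧
      ∑ i ∈ Finset.range d, x ^ i = y ^ k}.ncard : ℕ) : ℝ) / X) Filter.atTop (nhds 0) :=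
  Pool.Agent.H91.NL.density_zero

end Pool.Agent.Results.MP_023499_nt.AlmostAllBases
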