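import Pool.Agent.H91.NL.RateQ

namespace Pool.Agent.Results.MP_023499_nt.FixedExponent

open Pool.Agent.H91.NL

/-- For every odd `k > 1` there are `c > 0` and `X0` such that for all `X ≥ X0` at most
`X^(1 - c / log log X)` integers `x` with `1 < |x| ≤ X` admit a solution of
`1 + x + ... + x^(d-1) = y^k` with `|y| > 1` and `d > 2`. -/
theorem result (k : ℕ) (hk : 1 < k) (hodd : Odd k) : ∃ c : ℝ, 0 < c ∧ ∃ X0 : ℕ, ∀ X ≥ X0,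
    (({x : ℤ | |x| ≤ (X : ℤ) ∧ 1 < |x| ∧ ∃ (y : ℤ) (d : ℕ), 1 < |y| ∧ 2 < d ∧
      ∑ i ∈ Finset.range d, x ^ i = y ^ k}.ncard : ℕ) : ℝ) ≤
      (X : ℝ) ^ (1 - c / Real.log (Real.log X)) := by
  obtain ⟨q, hq, hqk⟩ := Nat.exists_prime_and_dvd (by omega : k ≠ 1)
  have hq3 : 3 ≤ q := by
    have h2 := hq.two_le
    rcases Nat.lt_or_ge 2 q with h | h
    · omega
    · have hq2 : q = 2 := by omega
      subst hq2
      exact absurd (even_iff_two_dvd.2 hqk) (Nat.not_even_iff_odd.2 hodd)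
  obtain ⟨c, hc, X0, hX⟩ := rate_q hq hq3
  refine ⟨c, hc, X0, fun X hX' => le_trans ?_ (hX X hX')⟩
  have : {x : ℤ | |x| ≤ (X : ℤ) ∧ 1 < |x| ∧ ∃ (y : ℤ) (d : ℕ), 1 < |y| ∧ 2 < d ∧
      ∑ i ∈ Finset.range d, x ^ i = y ^ k} ⊆ {x : ℤ | |x| ≤ (X : ℤ) ∧
      x ∈ {x | ∃ (y : ℤ) (n : ℕ), 2 ≤ n ∧ rep x n = y ^ q}} := by
    rintro x ⟨h1, -, y, d, -, hd, h⟩
    obtain ⟨m, rfl⟩ := hqk
    refine ⟨h1, y ^ m, d, by omega, ?_⟩
    rw [← pow_mul, Nat.mul_comm m q]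
    exact h
  exact_mod_cast Set.ncard_le_ncard this (finite_cnt _ X)

end Pool.Agent.Results.MP_023499_nt.FixedExponent
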