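import Pool.Agent.H91.NL.Foreign

namespace Pool.Agent.Results.MP_023499_nt.ForeignPart

open Pool.Agent.H91.NL

/-- Let `1 + x + ... + x^(d-1) = y^k` with `|x| > 1`, `|y| > 1`, `k > 1`, let `q` be a prime divisor
of `k` and let `M` be a divisor of `x` none of whose prime factors is `q` or congruent to `1`
modulo `q`.  Then `log M ≤ 2000 (log q / √q) log |x|`. -/
theorem result (x y : ℤ) (d k q M : ℕ) (hx : 1 < |x|) (hy : 1 < |y|) (hk : 1 < k)
    (h : ∑ i ∈ Finset.range d, x ^ i = y ^ k) (hq : q.Prime) (hqk : q ∣ k) (hMx : (M : ℤ) ∣ x)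
    (hM : ∀ p : ℕ, p.Prime → p ∣ M → p ≠ q ∧ ¬ p ≡ 1 [MOD q]) :
    Real.log M ≤ 2000 * (Real.log q / √q) * Real.log |(x : ℝ)| := by
  obtain ⟨m, rfl⟩ := hqk
  have hm : 0 < m := by
    rcases Nat.eq_zero_or_pos m with hm | hm
    · subst hm
      simp at hk
    · exact hm
  have hy' : 2 ≤ |y ^ m| := by
    rw [abs_pow]
    calc (2 : ℤ) ≤ |y| := hy
      _ ≤ |y| ^ m := le_self_pow₀ (by omega) (by omega)
  refine foreign (y := y ^ m) (n := d) hx hy' hq ?_ hMx ?_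
  · rw [← pow_mul, Nat.mul_comm m q]
    exact h
  · intro p hp hpM
    refine ⟨(hM p hp hpM).1, fun hd => (hM p hp hpM).2 ?_⟩
    exact ((Nat.modEq_iff_dvd' hp.one_lt.le).2 hd).symm

end Pool.Agent.Results.MP_023499_nt.ForeignPart
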